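import Pool.Agent.Helper3.SP.Ord

/-!
# The chain condition of the poset
-/

namespace Pool.Agent.Helper3.SP

open Cardinal Set

set_option linter.unusedSectionVars false

variable {A L : Type} [LinearOrder A] [LinearOrder L]

namespace CC

/-- the support of a condition -/
def supp (p : PC A L) : Set (Ix A L) := Prod.fst '' p.1.S ∪ Prod.fst '' p.1.K

theorem supp_S {p : PC A L} {i : Ix A L} {b : A} (h : (i, b) ∈ p.1.S) : i ∈ supp p :=
  Or.inl ⟨_, h, rfl⟩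

theorem supp_K {p : PC A L} {i : Ix A L} {l : L} (h : (i, l) ∈ p.1.K) : i ∈ supp p :=
  Or.inr ⟨_, h, rfl⟩

theorem alephA (h : Hyp A L) : ℵ₀ ≤ #A := h.unc.le

theorem mk_supp (h : Hyp A L) (p : PC A L) : #(supp p) < #A :=
  (mk_union_le _ _).trans_lt (add_lt_of_lt (alephA h) (mk_image_le.trans_lt p.2.1)
    (mk_image_le.trans_lt p.2.2))

theorem iUnion_le (h : Hyp A L) {ι T : Type} (f : ι → Set T) (hι : #ι ≤ #A)
    (hf : ∀ i, #(f i) ≤ #A) : #(⋃ i, f i : Set T) ≤ #A := by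
  have h1 : (⨆ i, #(f i)) ≤ #A := ciSup_le' hf
  calc #(⋃ i, f i : Set T) ≤ #ι * ⨆ i, #(f i) := mk_iUnion_le f
    _ ≤ #A * #A := mul_le_mul' hι h1
    _ = #A := mul_eq_self (alephA h)

theorem compat (h : Hyp A L) {p q : PC A L} (h1 : p.1.len = q.1.len)
    (h2 : ∀ a < p.1.len, (a ∈ p.1.x ↔ a ∈ q.1.x))
    (h3 : ∀ i ∈ supp p, i ∈ supp q → ∀ b, ((i, b) ∈ p.1.S ↔ (i, b) ∈ q.1.S)) :
    ∃ r : PC A L, r ≤ p ∧ r ≤ q := by
  refine ⟨⟨⟨p.1.len, p.1.x, p.1.S ∪ q.1.S, p.1.K ∪ q.1.K⟩, ?_, ?_⟩, ?_, ?_⟩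
  · exact (mk_union_le _ _).trans_lt (add_lt_of_lt (alephA h) p.2.1 q.2.1)
  · exact (mk_union_le _ _).trans_lt (add_lt_of_lt (alephA h) p.2.2 q.2.2)
  · refine ⟨le_rfl, fin_diff_refl p.1, fun j _ => ⟨fun b hb => Or.inl hb, fun l hl => Or.inl hl,
      fun b hb hb' l hl => ?_⟩⟩
    rcases hb with hb | hb
    · exact absurd hb hb'
    · exact absurd ((h3 j (supp_K hl) (supp_S hb) b).2 hb) hb'
  · refine ⟨h1.ge, ?_, fun j _ => ⟨fun b hb => Or.inr hb, fun l hl => Or.inr hl,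
      fun b hb hb' l hl => ?_⟩⟩
    · convert Set.finite_empty (α := A)
      ext a
      simp only [mem_ofPred_eq, mem_empty_iff_false, iff_false, not_and, not_not]
      intro ha
      exact h2 a (h1 ▸ ha)
    · rcases hb with hb | hb
      · exact absurd ((h3 j (supp_S hb) (supp_K hl) b).1 hb) hb'
      · exact absurd hb hb'

/-- the number of small subsets -/
theorem small_A (h : Hyp A L) : #{S : Set A | #S < #A} ≤ #A := by
  have h1 : {S : Set A | #S < #A} ⊆ ⋃ m : A, powerset (Iio m) := by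
    intro S hS
    obtain ⟨m, hm⟩ := h.bddA S hS
    exact mem_iUnion.2 ⟨m, fun a ha => hm a ha⟩
  refine (mk_le_mk_of_subset h1).trans (iUnion_le h _ le_rfl fun m => ?_)
  rw [mk_powerset]
  exact (h.pow _ (h.segA m)).le

theorem small_Y (h : Hyp A L) {T : Type} (Y : Set T) (hY : #Y ≤ #A) :
    #{S : Set T | S ⊆ Y ∧ #S < #A} ≤ #A := by
  obtain ⟨e⟩ : Nonempty (Y ↪ A) := hY
  refine le_trans ?_ (small_A h)
  refine mk_le_of_injective (f := fun S => ⟨e '' (Subtype.val ⁻¹' S.1), ?_⟩) ?_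
  · exact (mk_image_le.trans (mk_preimage_of_injective _ _ Subtype.val_injective)).trans_lt S.2.2
  · intro S S' hSS
    have h1 : e '' (Subtype.val ⁻¹' S.1) = e '' (Subtype.val ⁻¹' S'.1) := congrArg Subtype.val hSS
    have h2 := e.injective.image_injective h1
    apply Subtype.ext
    ext a
    constructor
    · intro ha
      have h3 : (⟨a, S.2.1 ha⟩ : Y) ∈ (Subtype.val ⁻¹' S.1 : Set Y) := ha
      rw [h2] at h3
      exact h3
    · intro ha
      have h3 : (⟨a, S'.2.1 ha⟩ : Y) ∈ (Subtype.val ⁻¹' S'.1 : Set Y) := ha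
      rw [← h2] at h3
      exact h3

/-- the trace of a condition -/
def tr (X : Set (Ix A L)) (p : PC A L) : A × Set A × Set (Ix A L × A) :=
  (p.1.len, {a | a < p.1.len ∧ a ∈ p.1.x}, {z | z.1 ∈ X ∧ z ∈ p.1.S})

theorem mk_tr (h : Hyp A L) {X : Set (Ix A L)} (hX : #X ≤ #A) (s : Set (PC A L)) :
    #(tr X '' s) ≤ #A := by
  have h1 : tr X '' s ⊆ (Set.univ : Set A) ×ˢ ({S : Set A | #S < #A} ×ˢ
      {S : Set (Ix A L × A) | S ⊆ X ×ˢ Set.univ ∧ #S < #A}) := by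
    rintro _ ⟨p, -, rfl⟩
    refine ⟨trivial, ?_, ?_, ?_⟩
    · refine lt_of_le_of_lt (mk_le_mk_of_subset ?_) (h.segA p.1.len)
      exact fun a ha => ha.1
    · exact fun z hz => ⟨hz.1, trivial⟩
    · exact lt_of_le_of_lt (mk_le_mk_of_subset fun z hz => hz.2) p.2.1
  have hk := mul_eq_self (alephA h)
  refine (mk_le_mk_of_subset h1).trans ?_
  rw [mk_setProd, mk_setProd, mk_univ]
  have h2 : #(X ×ˢ (Set.univ : Set A) : Set (Ix A L × A)) ≤ #A := by
    rw [mk_setProd, mk_univ]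
    exact (mul_le_mul_left hX _).trans hk.le
  calc #A * (#{S : Set A | #S < #A} * #{S : Set (Ix A L × A) | S ⊆ X ×ˢ Set.univ ∧ #S < #A})
      ≤ #A * (#A * #A) := mul_le_mul' le_rfl (mul_le_mul' (small_A h) (small_Y h _ h2))
    _ = #A := by rw [hk, hk]

section rec

variable [Nonempty (PC A L)] (s : Set (PC A L))

/-- the chosen conditions -/
noncomputable def Cn (X : Set (Ix A L)) : Set (PC A L) :=
  Function.invFunOn (tr X) s '' (tr X '' s)

/-- one step of the closure -/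
noncomputable def Ph (X : Set (Ix A L)) : Set (Ix A L) := X ∪ ⋃ p : Cn s X, supp p.1

theorem mk_Cn (h : Hyp A L) {X : Set (Ix A L)} (hX : #X ≤ #A) : #(Cn s X) ≤ #A :=
  mk_image_le.trans (mk_tr h hX s)

theorem mk_Ph (h : Hyp A L) {X : Set (Ix A L)} (hX : #X ≤ #A) : #(Ph s X) ≤ #A := by
  have h1 : #(⋃ p : Cn s X, supp p.1 : Set (Ix A L)) ≤ #A :=
    iUnion_le h _ (mk_Cn s h hX) fun p => (mk_supp h p.1).le
  exact (mk_union_le _ _).trans ((add_le_add hX h1).trans (add_eq_self (alephA h)).le)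

/-- the chain of sets of indices -/
noncomputable def Mn (h : Hyp A L) : A → Set (Ix A L) :=
  h.wfA.wf.fix (C := fun _ => Set (Ix A L)) fun η rec => ⋃ ζ : {ζ : A // ζ < η}, Ph s (rec ζ.1 ζ.2)

theorem Mn_eq (h : Hyp A L) (η : A) : Mn s h η = ⋃ ζ : {ζ : A // ζ < η}, Ph s (Mn s h ζ.1) := by
  rw [Mn, h.wfA.wf.fix_eq]

theorem Mn_mono (h : Hyp A L) {η θ : A} (hle : η ≤ θ) : Mn s h η ⊆ Mn s h θ := by
  rw [Mn_eq, Mn_eq]
  intro i hi
  obtain ⟨ζ, hζ⟩ := mem_iUnion.1 hi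
  exact mem_iUnion.2 ⟨⟨ζ.1, ζ.2.trans_le hle⟩, hζ⟩

theorem Ph_sub (h : Hyp A L) {η θ : A} (hlt : η < θ) : Ph s (Mn s h η) ⊆ Mn s h θ := by
  rw [Mn_eq s h θ]
  intro i hi
  exact mem_iUnion.2 ⟨⟨η, hlt⟩, hi⟩

theorem mk_Mn (h : Hyp A L) (η : A) : #(Mn s h η) ≤ #A := by
  induction η using h.wfA.wf.induction with
  | _ η ih =>
    rw [Mn_eq]
    exact iUnion_le h _ (mk_subtype_le _) fun ζ => mk_Ph s h (ih ζ.1 ζ.2)

end rec

end CC

open CC in
theorem cc (h : Hyp A L) (s : Set (PC A L))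
    (hs : ∀ p ∈ s, ∀ q ∈ s, p ≠ q → ¬ ∃ r : PC A L, r ≤ p ∧ r ≤ q) : #s ≤ #A := by
  rcases s.eq_empty_or_nonempty with rfl | ⟨p₀, hp₀⟩
  · simp
  have : Nonempty (PC A L) := ⟨p₀⟩
  have : Nonempty A := ⟨p₀.1.len⟩
  have hsub : s ⊆ ⋃ η : A, Cn s (Mn s h η) := by
    intro q hq
    -- a bound for the part of the support in the union
    have hb : ∃ m : A, ∀ i ∈ supp q, (∃ η, i ∈ Mn s h η) → i ∈ Mn s h m := by
      classical
      choose! f hf using fun (i : Ix A L) (hi : ∃ η, i ∈ Mn s h η) => hi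
      obtain ⟨m, hm⟩ := h.bddA (f '' supp q) (mk_image_le.trans_lt (mk_supp h q))
      refine ⟨m, fun i hi hη => Mn_mono s h (hm _ ⟨i, hi, rfl⟩).le (hf i hη)⟩
    obtain ⟨m, hm⟩ := hb
    refine mem_iUnion.2 ⟨m, ?_⟩
    have hex : ∃ a ∈ s, tr (Mn s h m) a = tr (Mn s h m) q := ⟨q, hq, rfl⟩
    set p := Function.invFunOn (tr (Mn s h m)) s (tr (Mn s h m) q) with hp
    have hps : p ∈ s := Function.invFunOn_mem hex
    have hpt : tr (Mn s h m) p = tr (Mn s h m) q := Function.invFunOn_eq hex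
    have hpC : p ∈ Cn s (Mn s h m) := ⟨_, ⟨q, hq, rfl⟩, rfl⟩
    have hsp : ∀ i ∈ supp p, ∃ η, i ∈ Mn s h η := by
      intro i hi
      obtain ⟨m', hm'⟩ := h.bddA {m} (by rw [mk_singleton]; exact one_lt_aleph0.trans h.unc)
      exact ⟨m', Ph_sub s h (hm' m rfl) (Or.inr (mem_iUnion.2 ⟨⟨p, hpC⟩, hi⟩))⟩
    have h1 : p.1.len = q.1.len := congrArg Prod.fst hpt
    have h2 : {a | a < p.1.len ∧ a ∈ p.1.x} = {a | a < q.1.len ∧ a ∈ q.1.x} :=
      congrArg (fun t => t.2.1) hpt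
    have h3 : {z : Ix A L × A | z.1 ∈ Mn s h m ∧ z ∈ p.1.S} =
        {z | z.1 ∈ Mn s h m ∧ z ∈ q.1.S} := congrArg (fun t => t.2.2) hpt
    have hc : ∃ r : PC A L, r ≤ p ∧ r ≤ q := by
      refine compat h h1 ?_ ?_
      · intro a ha
        have h4 : a ∈ {a | a < p.1.len ∧ a ∈ p.1.x} ↔ a ∈ {a | a < q.1.len ∧ a ∈ q.1.x} := by
          rw [h2]
        constructor
        · intro h5
          exact (h4.1 ⟨ha, h5⟩).2
        · intro h5
          exact (h4.2 ⟨h1 ▸ ha, h5⟩).2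
      · intro i hi hi' b
        have h4 : (i, b) ∈ {z : Ix A L × A | z.1 ∈ Mn s h m ∧ z ∈ p.1.S} ↔
            (i, b) ∈ {z : Ix A L × A | z.1 ∈ Mn s h m ∧ z ∈ q.1.S} := by rw [h3]
        have h5 : i ∈ Mn s h m := hm i hi' (hsp i hi)
        constructor
        · intro h6
          exact (h4.1 ⟨h5, h6⟩).2
        · intro h6
          exact (h4.2 ⟨h5, h6⟩).2
    by_cases hpq : p = q
    · rw [← hpq]
      exact hpC
    · exact absurd hc (hs p hps q hq hpq)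
  exact (mk_le_mk_of_subset hsub).trans (iUnion_le h _ le_rfl fun η => mk_Cn s h (mk_Mn s h η))

end Pool.Agent.Helper3.SP
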