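import Mathlib
import Pool.Agent.Helper5.JB.Pipe
import Pool.Agent.Helper5.JB.Fam

/-!
# Union bound over all twisted correlation sums, with an exponent for every order
The same proofs as Helper5/JB/Pipe.lean and Helper5/JB/Fam.lean, with the exponent `sx k` in place of `1/2` for the sums of order `k`.
-/

set_option autoImplicit false

namespace Pool.Agent.Helper55.SP

open Finset
open Pool.Agent.Helper92.GB (e ext F npi wt u2_norm_e u2_e_add u2_e_int)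
open Pool.Agent.Helper92.GB.HALFaux (e_lip)
open Pool.Agent.Helper92.CB
open Pool.Agent.Helper5.JB (cor cort)

/-- the product over the prime factors as a product over all primes up to `2 N` -/
private lemma jb_pf (f : ℕ → ℤ) (m N : ℕ) (h1 : 1 ≤ m) (h2 : m ≤ 2 * N) :
    ∏ p ∈ m.primeFactors, f p =
      ∏ p ∈ (Icc 1 (2 * N)).filter Nat.Prime, if p ∣ m then f p else 1 := by
  rw [← Finset.prod_filter, Finset.filter_filter]
  refine Finset.prod_congr ?_ fun _ _ => rfl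
  ext p
  rw [Nat.mem_primeFactors, Finset.mem_filter, Finset.mem_Icc]
  constructor
  · rintro ⟨hp, hd, _⟩
    exact ⟨⟨hp.one_lt.le, (Nat.le_of_dvd (by omega) hd).trans h2⟩, hp, hd⟩
  · rintro ⟨_, hp, hd⟩
    exact ⟨hp, hd, by omega⟩

private lemma jb_prod {k : ℕ} (h : Fin k → ℕ) (N n : ℕ) (hn1 : 1 ≤ n) (hnN : n ≤ N) (hle : ∀ i, h i ≤ N)
    (f : ℕ → ℤˣ) (hsq : ∀ i, Squarefree (n + h i)) :
    ∏ i, ext (fun n => ((f n : ℤˣ) : ℤ)) (n + h i) = ∏ p ∈ kap h N n, ((f p : ℤˣ) : ℤ) := by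
  have h1 : ∀ i, ext (fun n => ((f n : ℤˣ) : ℤ)) (n + h i) =
      ∏ p ∈ (Icc 1 (2 * N)).filter Nat.Prime, if p ∣ n + h i then ((f p : ℤˣ) : ℤ) else 1 := by
    intro i
    unfold Pool.Agent.Helper92.GB.ext
    rw [if_pos (hsq i)]
    exact jb_pf (fun n => ((f n : ℤˣ) : ℤ)) (n + h i) N (by omega) (by have := hle i; omega)
  rw [Finset.prod_congr rfl fun i _ => h1 i, Finset.prod_comm]
  have h2 : kap h N n = ((Icc 1 (2 * N)).filter Nat.Prime).filter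
      (fun p => Odd ((univ.filter fun i => p ∣ n + h i).card)) := by
    unfold kap
    rw [Finset.filter_filter]
  rw [h2, Finset.prod_filter (s := (Icc 1 (2 * N)).filter Nat.Prime)]
  refine Finset.prod_congr rfl fun p _ => ?_
  rw [← Finset.prod_filter, Finset.prod_const]
  have hf : (((f p : ℤˣ) : ℤ)) ^ 2 = 1 := by
    have := Int.units_sq (f p)
    rw [← Units.val_pow_eq_pow_val, this, Units.val_one]
  split_ifs with ho
  · obtain ⟨c, hc⟩ := ho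
    rw [hc, pow_succ, pow_mul, hf, one_pow, one_mul]
  · rw [Nat.not_odd_iff_even] at ho
    obtain ⟨c, hc⟩ := ho
    rw [hc, ← two_mul, pow_mul, hf, one_pow]

private lemma jb_ch_mul (W : Finset ℕ) (σ f : ℕ → ℤˣ) :
    ch W (fun n => σ n * f n) = ch W σ * ch W f := by
  unfold ch
  rw [← Finset.prod_mul_distrib]
  refine Finset.prod_congr rfl fun p _ => ?_
  push_cast
  rfl

private lemma jb_ch_abs (W : Finset ℕ) (f : ℕ → ℤˣ) : |ch W f| ≤ 1 := by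
  unfold ch
  rw [Finset.abs_prod]
  refine Finset.prod_le_one (fun _ _ => abs_nonneg _) fun p _ => ?_
  rcases Int.units_eq_one_or (f p) with hp | hp <;> simp [hp]

/-- real or imaginary part -/
private noncomputable def jb_ri (b : Bool) (z : ℂ) : ℝ := if b then z.re else z.im

private lemma jb_ri_abs (b : Bool) (z : ℂ) (hz : ‖z‖ ≤ 1) : |jb_ri b z| ≤ 1 := by
  unfold jb_ri
  split_ifs
  · exact (Complex.abs_re_le_norm z).trans hz
  · exact (Complex.abs_im_le_norm z).trans hz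

/-- the test -/
private noncomputable def jb_tst {k : ℕ} (N : ℕ) (h : Fin k → ℕ) (a : ℕ → ℂ) (b : Bool)
    (σ f : ℕ → ℤˣ) : ℝ :=
  ∑ n ∈ sqf h N, (jb_ri b (a n) * ch (kap h N n) σ) * ch (kap h N n) f

private lemma jb_dep {k : ℕ} (N : ℕ) (h : Fin k → ℕ) (a : ℕ → ℂ) (b : Bool)
    (σ f f' : ℕ → ℤˣ) (hf : ∀ p : ℕ, p.Prime → p ≤ 2 * N → f p = f' p) :
    jb_tst N h a b σ f = jb_tst N h a b σ f' := by
  unfold jb_tst
  refine Finset.sum_congr rfl fun n _ => ?_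
  congr 1
  unfold ch
  refine Finset.prod_congr rfl fun p hp => ?_
  unfold kap at hp
  rw [Finset.mem_filter, Finset.mem_Icc] at hp
  rw [hf p hp.2.1 hp.1.2]

private lemma jb_cor_eq {k : ℕ} (h : Fin k → ℕ) (N : ℕ) (hle : ∀ i, h i ≤ N)
    (f : ℕ → ℤˣ) (a : ℕ → ℂ) : cor (ext fun n => ((f n : ℤˣ) : ℤ)) h N a =
      ∑ n ∈ sqf h N, ((ch (kap h N n) f : ℝ) : ℂ) * a n := by
  classical
  unfold cor sqf
  rw [Finset.sum_filter]
  refine Finset.sum_congr rfl fun n hn => ?_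
  rw [Finset.mem_Icc] at hn
  split_ifs with hs
  · congr 1
    have := jb_prod h N n hn.1 hn.2 hle f hs
    have h3 : (((∏ i, ext (fun n => ((f n : ℤˣ) : ℤ)) (n + h i) : ℤ)) : ℂ) =
        ((∏ p ∈ kap h N n, ((f p : ℤˣ) : ℤ) : ℤ) : ℂ) := by rw [this]
    rw [Int.cast_prod] at h3
    rw [h3]
    unfold ch
    push_cast
    rfl
  · push Not at hs
    obtain ⟨i, hi⟩ := hs
    have h0 : ext (fun n => ((f n : ℤˣ) : ℤ)) (n + h i) = 0 := by
      unfold Pool.Agent.Helper92.GB.ext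
      rw [if_neg hi]
    rw [Finset.prod_eq_zero (Finset.mem_univ i) (by rw [h0, Int.cast_zero]), zero_mul]

/-- the correlation sum is bounded by two tests -/
private lemma jb_cor_le {k : ℕ} (h : Fin k → ℕ) (N : ℕ) (hle : ∀ i, h i ≤ N)
    (σ f : ℕ → ℤˣ) (a : ℕ → ℂ) :
    ‖cor (ext fun n => ((σ n * f n : ℤˣ) : ℤ)) h N a‖ ≤ |jb_tst N h a true σ f| + |jb_tst N h a false σ f| := by
  rw [jb_cor_eq h N hle (fun n => σ n * f n)]
  refine (Complex.norm_le_abs_re_add_abs_im _).trans (le_of_eq ?_)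
  rw [Complex.re_sum, Complex.im_sum]
  unfold jb_tst jb_ri
  congr 1
  · congr 1
    refine Finset.sum_congr rfl fun n _ => ?_
    rw [jb_ch_mul, Complex.re_ofReal_mul]
    simp only [if_true]
    ring
  · congr 1
    refine Finset.sum_congr rfl fun n _ => ?_
    rw [jb_ch_mul, Complex.im_ofReal_mul]
    simp only [Bool.false_eq_true, if_false]
    ring

private lemma jb_card_sqf {k : ℕ} (N : ℕ) (h : Fin k → ℕ) : ((sqf h N).card : ℝ) ≤ N := by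
  have : (sqf h N).card ≤ N := by
    unfold sqf
    refine (Finset.card_filter_le _ _).trans ?_
    rw [Nat.card_Icc]; omega
  exact_mod_cast this

private lemma jb_triv {k : ℕ} (N : ℕ) (h : Fin k → ℕ) (hle : ∀ i, h i ≤ N) (a : ℕ → ℂ) (ha : ∀ n, ‖a n‖ ≤ 1)
    (f : ℕ → ℤˣ) : ‖cor (ext fun n => ((f n : ℤˣ) : ℤ)) h N a‖ ≤ N := by
  rw [jb_cor_eq h N hle]
  refine (norm_sum_le _ _).trans ?_
  have h1 : ∀ n ∈ sqf h N, ‖((ch (kap h N n) f : ℝ) : ℂ) * a n‖ ≤ 1 := by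
    intro n _
    rw [norm_mul, Complex.norm_real, Real.norm_eq_abs]
    exact mul_le_one₀ (jb_ch_abs _ _) (norm_nonneg _) (ha n)
  refine (Finset.sum_le_sum h1).trans ?_
  rw [Finset.sum_const, nsmul_eq_mul, mul_one]
  exact jb_card_sqf N h

private lemma jb_ratio (A C ε σ : ℝ) (hA : 1 ≤ A) (hC : 0 ≤ C) (r q : ℕ)
    (hq : (q : ℝ) ≤ ε * 2 ^ r) :
    C * A ^ ((2 * σ + ε) * 2 ^ r) / (A ^ (σ + ε)) ^ (2 * 2 ^ r) ≤ C / A ^ q := by
  have hA0 : 0 < A := by linarith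
  have h1 : (A ^ (σ + ε)) ^ (2 * 2 ^ r) = A ^ ((2 * σ + ε) * 2 ^ r) * A ^ (ε * 2 ^ r) := by
    rw [← Real.rpow_natCast, ← Real.rpow_mul hA0.le, ← Real.rpow_add hA0]
    congr 1
    push_cast
    ring
  have h2 : 0 < A ^ ((2 * σ + ε) * 2 ^ r) := Real.rpow_pos_of_pos hA0 _
  have h3 : A ^ q ≤ A ^ (ε * 2 ^ r) := by
    rw [← Real.rpow_natCast]
    exact Real.rpow_le_rpow_of_exponent_le hA hq
  have h4 : 0 < A ^ q := by positivity
  rw [h1, mul_comm C, mul_div_mul_left _ _ h2.ne']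
  exact div_le_div_of_nonneg_left hC h4 h3

private lemma jb_sumN (T : ℕ) : ∑ N ∈ range T, 1 / ((N : ℝ) * (N + 1)) ≤ 1 := by
  have h : ∀ T : ℕ, ∑ N ∈ range (T + 1), 1 / ((N : ℝ) * (N + 1)) ≤ 1 - 1 / ((T : ℝ) + 1) := by
    intro T
    induction T with
    | zero => simp
    | succ T ih =>
      rw [Finset.sum_range_succ]
      have e1 : (1 : ℝ) / ((((T + 1 : ℕ)) : ℝ) * (((T + 1 : ℕ) : ℝ) + 1)) =
          1 / ((T : ℝ) + 1) - 1 / (((T + 1 : ℕ) : ℝ) + 1) := by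
        push_cast
        field_simp
        ring
      rw [e1]
      linarith
  rcases T with _ | T
  · simp
  · refine (h T).trans ?_
    have : (0 : ℝ) ≤ 1 / ((T : ℝ) + 1) := by positivity
    linarith

private lemma jb_summ (T : ℕ) : ∑ m ∈ range T, ((1 : ℝ) / 2) ^ (m + 4) ≤ 1 / 8 := by
  have h : ∀ T : ℕ, ∑ m ∈ range T, ((1 : ℝ) / 2) ^ (m + 4) = 1 / 8 - (1 / 8) * (1 / 2) ^ T := by
    intro T
    induction T with
    | zero => simp
    | succ T ih =>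
      rw [Finset.sum_range_succ, ih]
      ring
  rw [h T]
  have : (0 : ℝ) ≤ (1 / 8) * (1 / 2) ^ T := by positivity
  linarith

private lemma jb_sum (T : ℕ) : ∑ s ∈ range T, ((1 : ℝ) / 2) ^ ((Nat.unpair s).1 + 4) *
    (1 / (((Nat.unpair s).2 : ℝ) * ((Nat.unpair s).2 + 1))) ≤ 1 / 2 := by
  have h1 : ∑ s ∈ range T, ((1 : ℝ) / 2) ^ ((Nat.unpair s).1 + 4) *
      (1 / (((Nat.unpair s).2 : ℝ) * ((Nat.unpair s).2 + 1))) =
      ∑ x ∈ (range T).image Nat.unpair, ((1 : ℝ) / 2) ^ (x.1 + 4) *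
        (1 / ((x.2 : ℝ) * (x.2 + 1))) := by
    rw [Finset.sum_image]
    intro a _ b _ hab
    have := congrArg (fun x : ℕ × ℕ => Nat.pair x.1 x.2) hab
    simpa using this
  rw [h1]
  have hsub : (range T).image Nat.unpair ⊆ range T ×ˢ range T := by
    intro x hx
    rw [Finset.mem_image] at hx
    obtain ⟨s, hs, rfl⟩ := hx
    rw [Finset.mem_range] at hs
    rw [Finset.mem_product, Finset.mem_range, Finset.mem_range]
    exact ⟨(Nat.unpair_left_le s).trans_lt hs, (Nat.unpair_right_le s).trans_lt hs⟩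
  refine (Finset.sum_le_sum_of_subset_of_nonneg hsub fun x _ _ => by positivity).trans ?_
  have h2 : ∑ x ∈ range T ×ˢ range T, ((1 : ℝ) / 2) ^ (x.1 + 4) * (1 / ((x.2 : ℝ) * (x.2 + 1))) =
      (∑ m ∈ range T, ((1 : ℝ) / 2) ^ (m + 4)) * ∑ N ∈ range T, 1 / ((N : ℝ) * (N + 1)) := by
    rw [Finset.sum_mul_sum, Finset.sum_product]
  rw [h2]
  have h3 := jb_summ T
  have h4 := jb_sumN T
  have h5 : 0 ≤ ∑ N ∈ range T, 1 / ((N : ℝ) * (N + 1)) := Finset.sum_nonneg fun N _ => by positivity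
  have h6 : 0 ≤ ∑ m ∈ range T, ((1 : ℝ) / 2) ^ (m + 4) := Finset.sum_nonneg fun N _ => by positivity
  calc (∑ m ∈ range T, ((1 : ℝ) / 2) ^ (m + 4)) * ∑ N ∈ range T, 1 / ((N : ℝ) * (N + 1))
      ≤ (1 / 8) * 1 := mul_le_mul h3 h4 h5 (by norm_num)
    _ ≤ 1 / 2 := by norm_num

/-- the failure term of one stage -/
private lemma jb_term (A C CD P K B : ℝ) (m Q0 : ℕ) (hA : 1 ≤ A) (hC : 0 ≤ C) (hCD : 0 ≤ CD) (hB : 0 ≤ B)
    (hP : P ≤ CD * A ^ 5) (hK : K ≤ B * A ^ Q0)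
    (hK0 : 0 ≤ K) (Q : ℝ) (hQ0 : 0 ≤ Q) (hQ : Q ≤ C / A ^ (Q0 + 10))
    (hA2 : 2 * (B * CD * C) * 2 ^ (m + 4) ≤ A) :
    P * K * Q ≤ (1 / 2) ^ (m + 4) * (1 / (A * (A + 1))) := by
  have hA0 : 0 < A := by linarith
  have h1 : P * K * Q ≤ (CD * A ^ 5) * (B * A ^ Q0) * (C / A ^ (Q0 + 10)) := by
    gcongr
  have h2 : (CD * A ^ 5) * (B * A ^ Q0) * (C / A ^ (Q0 + 10)) =
      (B * CD * C) / A ^ 5 := by
    have e1 : A ^ (Q0 + 10) = A ^ 5 * A ^ Q0 * A ^ 5 := by ring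
    rw [e1]
    field_simp
  rw [h2] at h1
  refine h1.trans ?_
  have hpow : (0 : ℝ) < 2 ^ (m + 4) := by positivity
  have h3 : (1 / 2 : ℝ) ^ (m + 4) * (1 / (A * (A + 1))) = 1 / (2 ^ (m + 4) * (A * (A + 1))) := by
    rw [div_pow, one_pow]
    field_simp
  rw [h3, div_le_div_iff₀ (by positivity) (by positivity)]
  set E : ℝ := B * CD * C with hE
  have hB0 : 0 ≤ E := by positivity
  have h40 : A * (A + 1) ≤ 2 * A ^ 2 := by nlinarith
  have h4 : E * (2 ^ (m + 4) * (A * (A + 1))) ≤ E * (2 ^ (m + 4) * (2 * A ^ 2)) :=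
    mul_le_mul_of_nonneg_left (mul_le_mul_of_nonneg_left h40 hpow.le) hB0
  have h5 : E * (2 ^ (m + 4) * (2 * A ^ 2)) = (2 * E * 2 ^ (m + 4)) * A ^ 2 := by ring
  rw [h5] at h4
  have h6 : (2 * E * 2 ^ (m + 4)) * A ^ 2 ≤ A * A ^ 2 := by gcongr
  have h7 : A * A ^ 2 ≤ 1 * A ^ 5 := by
    have h8 : A ^ 3 ≤ A ^ 5 := pow_le_pow_right₀ hA (by norm_num)
    calc A * A ^ 2 = A ^ 3 := by ring
      _ ≤ 1 * A ^ 5 := by rw [one_mul]; exact h8
  linarith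

theorem PIPEG (k0 : ℕ) (sx : ℕ → ℝ) (hsx : ∀ k, k0 ≤ k → 1 / 2 ≤ sx k ∧ sx k ≤ 1) {I : Type} [DecidableEq I] [Encodable I] (c : I → Finset ℕ)
    (hdis : ∀ i j, i ≠ j → Disjoint (c i) (c j)) (w w0 : ∀ i, ({p // p ∈ c i} → ℤˣ) → ℝ)
    (hw : ∀ i, IsPW (w i)) (hw0 : ∀ i, IsPW (w0 i)) (D : I → ℝ) (hD1 : ∀ i, 1 ≤ D i)
    (hD : ∀ i x, w i x ≤ D i * w0 i x) (rel : ℕ → Finset I)
    (hcov : ∀ (N p : ℕ), p.Prime → p ≤ 2 * N → ∃ i ∈ rel N, p ∈ c i)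
    (CD : ℝ) (hDp : ∀ N : ℕ, 1 ≤ N → ∏ i ∈ rel N, D i ≤ CD * (N : ℝ) ^ 5)
    (Fl : ℕ → Type) [∀ N, Fintype (Fl N)] (sg : ∀ N, Fl N → ℕ → ℤˣ)
    (hFl : ∀ N : ℕ, 1 ≤ N → Fintype.card (Fl N) ≤ N)
    (hMB : ∀ k : ℕ, k0 ≤ k → ∀ (r : ℕ) (ε : ℝ), 0 < ε → ∃ C : ℝ, ∀ N : ℕ, 1 ≤ N →
      ∀ h : Fin k → ℕ, Function.Injective h → (∀ i, h i ≤ N) → ∀ a : ℕ → ℝ, (∀ n, |a n| ≤ 1) →
      ∀ l : List I, l.Nodup → (∀ i, i ∈ l ↔ i ∈ rel N) →
      EL c w0 l (fun f => (∑ n ∈ sqf h N, a n * ch (kap h N n) f) ^ (2 ^ (r + 1))) (fun _ => 1) ≤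
        C * (N : ℝ) ^ ((2 * sx k + ε) * 2 ^ r))
    (A : ℕ → ℕ → Finset (ℕ → ℂ)) (hA : ∀ m N, ∀ a ∈ A m N, ∀ n, ‖a n‖ ≤ 1) (K : ℕ → ℕ) (CA : ℕ → ℝ)
    (hCA : ∀ m, 0 ≤ CA m) (hcard : ∀ m N, 1 ≤ N → ((A m N).card : ℝ) ≤ CA m * (N : ℝ) ^ K m) :
    ∃ f : ℕ → ℤˣ, (∀ i, 0 < w i (rs (c i) f)) ∧ ∀ k : ℕ, k0 ≤ k → ∀ j : ℕ,
      ∃ C : ℝ, 0 ≤ C ∧ ∀ N : ℕ, 1 ≤ N → ∀ h : Fin k → ℕ, Function.Injective h →
        (∀ i, h i ≤ N) → ∀ (φ : Fl N), ∀ a ∈ A j N,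
        ‖cor (ext fun n => ((sg N φ n * f n : ℤˣ) : ℤ)) h N a‖ ≤ C * (N : ℝ) ^ (sx k + 1 / ((j : ℝ) + 1)) := by
  classical
  -- the constants
  let kk : ℕ → ℕ := fun m => k0 + (Nat.unpair m).1
  let jj : ℕ → ℕ := fun m => (Nat.unpair m).2
  let ee : ℕ → ℝ := fun m => 1 / (((Nat.unpair m).2 : ℝ) + 1)
  let qq : ℕ → ℕ := fun m => kk m + K (jj m) + 1
  let rr : ℕ → ℕ := fun m => ((Nat.unpair m).2 + 1) * (qq m + 10)
  let BB : ℕ → ℝ := fun m => 2 * 2 ^ kk m * CA (jj m)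
  have hBB : ∀ m, 0 ≤ BB m := fun m => mul_nonneg (by positivity) (hCA _)
  have hee : ∀ m, 0 < ee m := fun m => by positivity
  have hrr : ∀ m, ((qq m + 10 : ℕ) : ℝ) ≤ ee m * 2 ^ rr m := by
    intro m
    have h1 : rr m < 2 ^ rr m := Nat.lt_two_pow_self
    have h2 : ((rr m : ℕ) : ℝ) ≤ 2 ^ rr m := by exact_mod_cast h1.le
    have h3 : ((rr m : ℕ) : ℝ) = (((Nat.unpair m).2 : ℝ) + 1) * ((qq m + 10 : ℕ) : ℝ) := by
      simp only [rr]
      push_cast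
      ring
    have h4 : ee m * ((rr m : ℕ) : ℝ) = ((qq m + 10 : ℕ) : ℝ) := by
      rw [h3]
      simp only [ee]
      field_simp
    rw [← h4]
    exact mul_le_mul_of_nonneg_left h2 (hee m).le
  choose C hC using fun m => hMB (kk m) (Nat.le_add_right _ _) (rr m) (ee m) (hee m)
  have hCD : 0 ≤ CD := by
    have h1 := hDp 1 le_rfl
    have h2 : (1 : ℝ) ≤ ∏ i ∈ rel 1, D i := by
      have := Finset.prod_le_prod (s := rel 1) (f := fun _ => (1 : ℝ)) (g := D)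
        (fun _ _ => zero_le_one) (fun i _ => hD1 i)
      simpa using this
    have h3 : CD * ((1 : ℕ) : ℝ) ^ 5 = CD := by simp
    linarith
  let N0 : ℕ → ℕ := fun m =>
    ⌈2 * (BB m * CD * |C m|) * 2 ^ (m + 4)⌉₊ + 1
  -- the parameters
  let Θ : ℕ → Type := fun s =>
    {θ : (Fin (kk (Nat.unpair s).1) → Fin ((Nat.unpair s).2 + 1)) ×
      {a // a ∈ A (jj (Nat.unpair s).1) (Nat.unpair s).2} × Bool × Fl (Nat.unpair s).2 //
      Function.Injective θ.1 ∧ N0 (Nat.unpair s).1 ≤ (Nat.unpair s).2}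
  let Φ : ∀ s, Θ s → (ℕ → ℤˣ) → ℝ := fun s θ f =>
    jb_tst (Nat.unpair s).2 (fun i => ((θ.1.1 i : Fin _) : ℕ)) (θ.1.2.1 : ℕ → ℂ)
      θ.1.2.2.1 (sg (Nat.unpair s).2 θ.1.2.2.2) f
  let X : ℕ → ℝ := fun s => if (Nat.unpair s).2 = 0 then 1 else
    ((Nat.unpair s).2 : ℝ) ^ (sx (kk (Nat.unpair s).1) + ee (Nat.unpair s).1)
  let Mo : ℕ → ℝ := fun s => |C (Nat.unpair s).1| *
    ((Nat.unpair s).2 : ℝ) ^ ((2 * sx (kk (Nat.unpair s).1) + ee (Nat.unpair s).1) * 2 ^ rr (Nat.unpair s).1)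
  have hN0 : ∀ m, 1 ≤ N0 m := fun m => by simp only [N0]; omega
  obtain ⟨f, hf1, hf2⟩ := EXI c hdis w w0 hw hw0 D hD1 hD Θ (fun s => rel (Nat.unpair s).2) Φ
    (by
      intro s θ f f' hff
      refine jb_dep _ _ _ _ _ _ _ ?_
      intro p hp hp2
      obtain ⟨i, hi, hpi⟩ := hcov _ p hp hp2
      exact hff i hi p hpi)
    (fun s => 2 ^ rr (Nat.unpair s).1) X Mo
    (by
      intro s
      simp only [X]
      split_ifs with h0
      · exact one_pos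
      · exact Real.rpow_pos_of_pos (by exact_mod_cast Nat.pos_of_ne_zero h0) _)
    (by
      intro s θ l hl hmem
      have hN : 1 ≤ (Nat.unpair s).2 := (hN0 _).trans θ.2.2
      have hinj : Function.Injective (fun i => ((θ.1.1 i : Fin _) : ℕ)) := fun a b hab =>
        θ.2.1 (Fin.ext hab)
      have h1 := hC (Nat.unpair s).1 (Nat.unpair s).2 hN (fun i => ((θ.1.1 i : Fin _) : ℕ)) hinj
        (fun i => Nat.lt_succ_iff.1 (θ.1.1 i).2)
        (fun n => jb_ri θ.1.2.2.1 ((θ.1.2.1 : ℕ → ℂ) n) *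
          ch (kap (fun i => ((θ.1.1 i : Fin _) : ℕ)) (Nat.unpair s).2 n) (sg (Nat.unpair s).2 θ.1.2.2.2))
        (fun n => by
          rw [abs_mul]
          exact mul_le_one₀ (jb_ri_abs _ _ (hA _ _ _ θ.1.2.1.2 n)) (abs_nonneg _) (jb_ch_abs _ _)) l hl hmem
      have h2 : (2 : ℕ) * 2 ^ rr (Nat.unpair s).1 = 2 ^ (rr (Nat.unpair s).1 + 1) := by
        rw [pow_succ, mul_comm]
      show EL c w0 l (fun f => Φ s θ f ^ (2 * 2 ^ rr (Nat.unpair s).1)) (fun _ => 1) ≤ Mo s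
      rw [h2]
      refine h1.trans ?_
      exact mul_le_mul_of_nonneg_right (le_abs_self _) (Real.rpow_nonneg (Nat.cast_nonneg _) _))
    (by
      intro T
      refine le_trans (Finset.sum_le_sum fun s _ => ?_) (jb_sum T)
      by_cases hs : N0 (Nat.unpair s).1 ≤ (Nat.unpair s).2
      · have hN : 1 ≤ (Nat.unpair s).2 := (hN0 _).trans hs
        have hNr : (1 : ℝ) ≤ ((Nat.unpair s).2 : ℝ) := by exact_mod_cast hN
        have hcardT : ((Fintype.card (Θ s) : ℕ) : ℝ) ≤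
            BB (Nat.unpair s).1 * ((Nat.unpair s).2 : ℝ) ^ qq (Nat.unpair s).1 := by
          have h1 : Fintype.card (Θ s) ≤ Fintype.card
              ((Fin (kk (Nat.unpair s).1) → Fin ((Nat.unpair s).2 + 1)) ×
              {a // a ∈ A (jj (Nat.unpair s).1) (Nat.unpair s).2} × Bool × Fl (Nat.unpair s).2) :=
            Fintype.card_le_of_injective (fun θ => θ.1) Subtype.val_injective
          have h2 : Fintype.card
              ((Fin (kk (Nat.unpair s).1) → Fin ((Nat.unpair s).2 + 1)) ×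
              {a // a ∈ A (jj (Nat.unpair s).1) (Nat.unpair s).2} × Bool × Fl (Nat.unpair s).2) =
              ((Nat.unpair s).2 + 1) ^ (kk (Nat.unpair s).1) *
              ((A (jj (Nat.unpair s).1) (Nat.unpair s).2).card *
              (2 * Fintype.card (Fl (Nat.unpair s).2))) := by
            simp only [Fintype.card_prod, Fintype.card_fun, Fintype.card_fin, Fintype.card_bool,
              Fintype.card_coe]
          have h3 := hFl (Nat.unpair s).2 hN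
          have h4 : ((Fintype.card (Θ s) : ℕ) : ℝ) ≤
              (((Nat.unpair s).2 : ℝ) + 1) ^ (kk (Nat.unpair s).1) *
              (((A (jj (Nat.unpair s).1) (Nat.unpair s).2).card : ℝ) *
              (2 * (Fintype.card (Fl (Nat.unpair s).2) : ℝ))) := by
            have := h1.trans h2.le
            exact_mod_cast this
          have h5 : ((Fintype.card (Fl (Nat.unpair s).2) : ℕ) : ℝ) ≤ ((Nat.unpair s).2 : ℝ) := by
            exact_mod_cast h3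
          have h6 := hcard (jj (Nat.unpair s).1) (Nat.unpair s).2 hN
          have h7 : ((Nat.unpair s).2 : ℝ) + 1 ≤ 2 * ((Nat.unpair s).2 : ℝ) := by linarith
          refine h4.trans ?_
          have hCA0 := hCA (jj (Nat.unpair s).1)
          calc (((Nat.unpair s).2 : ℝ) + 1) ^ (kk (Nat.unpair s).1) *
              (((A (jj (Nat.unpair s).1) (Nat.unpair s).2).card : ℝ) *
              (2 * (Fintype.card (Fl (Nat.unpair s).2) : ℝ)))
              ≤ (2 * ((Nat.unpair s).2 : ℝ)) ^ (kk (Nat.unpair s).1) *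
              ((CA (jj (Nat.unpair s).1) * ((Nat.unpair s).2 : ℝ) ^ K (jj (Nat.unpair s).1)) *
              (2 * ((Nat.unpair s).2 : ℝ))) := by
                gcongr
            _ = BB (Nat.unpair s).1 * ((Nat.unpair s).2 : ℝ) ^ qq (Nat.unpair s).1 := by
                simp only [BB, qq, kk, jj]
                ring
        have hX : X s = ((Nat.unpair s).2 : ℝ) ^ (sx (kk (Nat.unpair s).1) + ee (Nat.unpair s).1) := by
          simp only [X]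
          rw [if_neg (by omega)]
        have hA2 : 2 * (BB (Nat.unpair s).1 * CD * |C (Nat.unpair s).1|) *
            2 ^ ((Nat.unpair s).1 + 4) ≤ ((Nat.unpair s).2 : ℝ) := by
          have h1 : (N0 (Nat.unpair s).1 : ℝ) ≤ ((Nat.unpair s).2 : ℝ) := by exact_mod_cast hs
          refine le_trans ?_ h1
          simp only [N0]
          push_cast
          have := Nat.le_ceil (2 * (BB (Nat.unpair s).1 * CD * |C (Nat.unpair s).1|) *
            2 ^ ((Nat.unpair s).1 + 4))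
          linarith
        refine jb_term ((Nat.unpair s).2 : ℝ) |C (Nat.unpair s).1| CD _ _ (BB (Nat.unpair s).1)
          (Nat.unpair s).1 (qq (Nat.unpair s).1) hNr (abs_nonneg _) hCD (hBB _) (hDp _ hN) hcardT
          (Nat.cast_nonneg _) _ ?_ ?_ hA2
        · rw [hX]
          have : 0 ≤ Mo s := by
            simp only [Mo]
            positivity
          positivity
        · rw [hX]
          simp only [Mo]
          exact jb_ratio _ _ _ _ hNr (abs_nonneg _) _ _ (hrr _)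
      · have hemp : IsEmpty (Θ s) := ⟨fun θ => hs θ.2.2⟩
        rw [Fintype.card_eq_zero]
        simp only [Nat.cast_zero, mul_zero, zero_mul]
        positivity)
  refine ⟨f, hf1, ?_⟩
  intro k hk j
  set m : ℕ := Nat.pair (k - k0) j with hm
  have hmk : kk m = k := by
    simp only [kk, hm, Nat.unpair_pair]
    omega
  have hmj : jj m = j := by
    simp only [jj, hm, Nat.unpair_pair]
  have hme : ee m = 1 / ((j : ℝ) + 1) := by
    simp only [ee, hm, Nat.unpair_pair]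
  refine ⟨(N0 m : ℝ) + 2, by positivity, ?_⟩
  intro N hN h hinj hle φ a ha
  have hNr : (1 : ℝ) ≤ N := by exact_mod_cast hN
  have hpow1 : (1 : ℝ) ≤ (N : ℝ) ^ (sx k + 1 / ((j : ℝ) + 1)) := by
    refine Real.one_le_rpow hNr ?_
    have h1 := (hsx k hk).1
    have h2 : (0 : ℝ) < 1 / ((j : ℝ) + 1) := by positivity
    linarith
  have h0 : (0 : ℝ) ≤ N0 m := Nat.cast_nonneg _
  by_cases hcase : N0 m ≤ N
  · have hs1 : (Nat.unpair (Nat.pair m N)).1 = m := by rw [Nat.unpair_pair]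
    have hs2 : (Nat.unpair (Nat.pair m N)).2 = N := by rw [Nat.unpair_pair]
    have key : ∀ (s m' N' k' j' : ℕ), (Nat.unpair s).1 = m' → (Nat.unpair s).2 = N' → kk m' = k' →
        jj m' = j' → N0 m' ≤ N' → 1 ≤ N' → ∀ (h : Fin k' → ℕ), Function.Injective h → (∀ i, h i ≤ N') →
        ∀ (a : ℕ → ℂ), a ∈ A j' N' → ∀ (b : Bool) (φ : Fl N'),
        |jb_tst N' h a b (sg N' φ) f| ≤ (N' : ℝ) ^ (sx k' + ee m') := by
      intro s m' N' k' j' e1 e2 e3 e4 h3 h4 h h5 h6 a ha b φ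
      subst e3
      subst e4
      subst e1
      subst e2
      let θ : Θ s := ⟨(fun i => ⟨h i, Nat.lt_succ_iff.2 (h6 i)⟩, ⟨a, ha⟩, b, φ),
        fun a b hab => h5 (by simpa using hab), h3⟩
      have h9 := hf2 s θ
      have h10 : X s = ((Nat.unpair s).2 : ℝ) ^ (sx (kk (Nat.unpair s).1) + ee (Nat.unpair s).1) := by
        simp only [X]
        rw [if_neg (by omega)]
      rw [h10] at h9
      exact h9
    have h1 := key (Nat.pair m N) m N k j hs1 hs2 hmk hmj hcase hN h hinj hle a ha true φ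
    have h2 := key (Nat.pair m N) m N k j hs1 hs2 hmk hmj hcase hN h hinj hle a ha false φ
    rw [hme] at h1 h2
    refine (jb_cor_le h N hle (sg N φ) f a).trans ?_
    nlinarith
  · have hNlt : (N : ℝ) ≤ N0 m := by exact_mod_cast (not_le.1 hcase).le
    refine (jb_triv N h hle a (hA j N a ha) (fun n => sg N φ n * f n)).trans ?_
    nlinarith

/-- Test vectors. -/
private noncomputable def at3 (N M y r : ℕ) (χ : DirichletCharacter ℂ (r + 1)) (j : ℤ) (n : ℕ) : ℂ :=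
  if n ≤ M then χ (n : ZMod (r + 1)) * npi n ((j : ℝ) / (N : ℝ) ^ 2) * e (n * ((y : ℝ) / (N : ℝ) ^ 2)) else 0

open Classical in
/-- The finite family of test vectors. -/
private noncomputable def famT (m N : ℕ) : Finset (ℕ → ℂ) :=
  (range (N + 1)).biUnion fun M => (range (N ^ 2)).biUnion fun y => (range (N ^ (m + 1))).biUnion fun r =>
    (univ : Finset (DirichletCharacter ℂ (r + 1))).biUnion fun χ =>
      (Icc (-((N ^ (m + 3) : ℕ) : ℤ)) ((N ^ (m + 3) : ℕ) : ℤ)).image (at3 N M y r χ)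

private theorem famT_norm (m N : ℕ) : ∀ a ∈ famT m N, ∀ n, ‖a n‖ ≤ 1 := by
  classical
  intro a ha n
  unfold famT at ha
  obtain ⟨M, _, h1⟩ := mem_biUnion.1 ha
  obtain ⟨y, _, h2⟩ := mem_biUnion.1 h1
  obtain ⟨r, _, h3⟩ := mem_biUnion.1 h2
  obtain ⟨χ, _, h4⟩ := mem_biUnion.1 h3
  obtain ⟨j, _, rfl⟩ := mem_image.1 h4
  unfold at3
  split_ifs
  · rw [norm_mul, norm_mul, u2_norm_e, mul_one]
    exact mul_le_one₀ (χ.norm_le_one _) (norm_nonneg _) (Pool.Agent.Helper92.GB.RBaux.npi_norm _ _)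
  · simp

private theorem famT_card (m N : ℕ) (hN : 1 ≤ N) : ((famT m N).card : ℝ) ≤ 6 * (N : ℝ) ^ (3 * m + 8) := by
  classical
  have hNR : (1 : ℝ) ≤ N := by exact_mod_cast hN
  have h1 : (famT m N).card ≤ (N + 1) * (N ^ 2 * ∑ r ∈ range (N ^ (m + 1)),
      Fintype.card (DirichletCharacter ℂ (r + 1)) * (2 * N ^ (m + 3) + 1)) := by
    unfold famT
    refine card_biUnion_le.trans ?_
    refine (Finset.sum_le_card_nsmul _ _ (N ^ 2 * ∑ r ∈ range (N ^ (m + 1)),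
      Fintype.card (DirichletCharacter ℂ (r + 1)) * (2 * N ^ (m + 3) + 1)) fun M _ => ?_).trans ?_
    · refine card_biUnion_le.trans ?_
      refine (Finset.sum_le_card_nsmul _ _ (∑ r ∈ range (N ^ (m + 1)),
        Fintype.card (DirichletCharacter ℂ (r + 1)) * (2 * N ^ (m + 3) + 1)) fun y _ => ?_).trans ?_
      · refine card_biUnion_le.trans (Finset.sum_le_sum fun r _ => ?_)
        refine card_biUnion_le.trans ?_
        refine (Finset.sum_le_card_nsmul _ _ (2 * N ^ (m + 3) + 1) fun χ _ => ?_).trans ?_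
        · refine card_image_le.trans ?_
          rw [Int.card_Icc]
          omega
        · rw [Finset.card_univ, smul_eq_mul]
      · rw [card_range, smul_eq_mul]
    · rw [card_range, smul_eq_mul]
  have h2 : ((famT m N).card : ℝ) ≤ ((N : ℝ) + 1) * ((N : ℝ) ^ 2 * ∑ r ∈ range (N ^ (m + 1)),
      (N : ℝ) ^ (m + 1) * (2 * (N : ℝ) ^ (m + 3) + 1)) := by
    refine (Nat.cast_le.2 h1).trans ?_
    push_cast
    refine mul_le_mul_of_nonneg_left (mul_le_mul_of_nonneg_left ?_ (by positivity)) (by positivity)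
    refine Finset.sum_le_sum fun r hr => ?_
    refine mul_le_mul_of_nonneg_right ((Pool.Agent.Helper92.GB.UR.card_char r).trans ?_) (by positivity)
    have h3 : r + 1 ≤ N ^ (m + 1) := mem_range.1 hr
    exact_mod_cast h3
  rw [Finset.sum_const, card_range, nsmul_eq_mul] at h2
  refine h2.trans ?_
  push_cast
  have e1 : (1 : ℝ) ≤ (N : ℝ) ^ (m + 3) := one_le_pow₀ hNR
  have e2 : 2 * (N : ℝ) ^ (m + 3) + 1 ≤ 3 * (N : ℝ) ^ (m + 3) := by linarith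
  have e3 : (N : ℝ) + 1 ≤ 2 * N := by linarith
  calc ((N : ℝ) + 1) * ((N : ℝ) ^ 2 * ((N : ℝ) ^ (m + 1) * ((N : ℝ) ^ (m + 1) * (2 * (N : ℝ) ^ (m + 3) + 1))))
      ≤ (2 * (N : ℝ)) * ((N : ℝ) ^ 2 * ((N : ℝ) ^ (m + 1) * ((N : ℝ) ^ (m + 1) * (3 * (N : ℝ) ^ (m + 3))))) := by
        gcongr
    _ = 6 * (N : ℝ) ^ (3 * m + 8) := by ring

/-- comparison with a member of the family -/
private theorem twist_le (b : ℕ → ℂ) (hb : ∀ n, ‖b n‖ ≤ 1) (m N : ℕ) (hN : 1 ≤ N) (B : ℝ)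
    (h : ∀ a ∈ famT m N, ‖∑ n ∈ Icc 1 N, b n * a n‖ ≤ B) (q : ℕ) (hq : 1 ≤ q)
    (χ : DirichletCharacter ℂ q) (t : ℝ) (M : ℕ) (hM : M ≤ N) (x : ℝ)
    (hbig : (q : ℝ) * (1 + |t|) ≤ (N : ℝ) ^ (m + 1)) :
    ‖∑ n ∈ Icc 1 M, b n * (χ (n : ZMod q) * npi n t * e (n * x))‖ ≤ B + 8 := by
  classical
  have hNR : (1 : ℝ) ≤ N := by exact_mod_cast hN
  have hNpos : (0 : ℝ) < N := by linarith
  have hL : (0 : ℝ) < (N : ℝ) ^ 2 := by positivity
  have hqR : (1 : ℝ) ≤ q := by exact_mod_cast hq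
  have ht0 : (1 : ℝ) ≤ 1 + |t| := by linarith [abs_nonneg t]
  obtain ⟨r, rfl⟩ : ∃ r, q = r + 1 := ⟨q - 1, by omega⟩
  have hq2 : ((r + 1 : ℕ) : ℝ) ≤ (N : ℝ) ^ (m + 1) := by
    refine le_trans ?_ hbig
    nlinarith
  have hr : r < N ^ (m + 1) := by
    have : r + 1 ≤ N ^ (m + 1) := by exact_mod_cast hq2
    omega
  have ht2 : |t| ≤ (N : ℝ) ^ (m + 1) := by
    have : |t| ≤ ((r + 1 : ℕ) : ℝ) * (1 + |t|) := by nlinarith [abs_nonneg t]
    linarith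
  -- the ordinate
  set j : ℤ := ⌊t * (N : ℝ) ^ 2⌋ with hj
  have hjm : j ∈ Icc (-((N ^ (m + 3) : ℕ) : ℤ)) ((N ^ (m + 3) : ℕ) : ℤ) := by
    have h1 : t * (N : ℝ) ^ 2 ≤ ((N ^ (m + 3) : ℕ) : ℝ) := by
      push_cast
      calc t * (N : ℝ) ^ 2 ≤ |t| * (N : ℝ) ^ 2 := mul_le_mul_of_nonneg_right (le_abs_self t) hL.le
        _ ≤ (N : ℝ) ^ (m + 1) * (N : ℝ) ^ 2 := mul_le_mul_of_nonneg_right ht2 hL.le
        _ = _ := by ring
    have h2 : -((N ^ (m + 3) : ℕ) : ℝ) ≤ t * (N : ℝ) ^ 2 := by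
      push_cast
      have : -|t| ≤ t := neg_abs_le t
      calc -(N : ℝ) ^ (m + 3) = -((N : ℝ) ^ (m + 1)) * (N : ℝ) ^ 2 := by ring
        _ ≤ -|t| * (N : ℝ) ^ 2 := mul_le_mul_of_nonneg_right (by linarith) hL.le
        _ ≤ t * (N : ℝ) ^ 2 := mul_le_mul_of_nonneg_right this hL.le
    rw [mem_Icc]
    constructor
    · rw [hj, Int.le_floor]
      push_cast at h2 ⊢
      exact h2
    · have h3 : ((j : ℤ) : ℝ) ≤ (((N ^ (m + 3) : ℕ) : ℤ) : ℝ) := by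
        rw [Int.cast_natCast]
        exact (Int.floor_le _).trans h1
      exact_mod_cast h3
  have hjd : |t - (j : ℝ) / (N : ℝ) ^ 2| ≤ 1 / (N : ℝ) ^ 2 := by
    have h6 : (j : ℝ) ≤ t * (N : ℝ) ^ 2 := Int.floor_le _
    have h7 : t * (N : ℝ) ^ 2 < j + 1 := Int.lt_floor_add_one _
    have h8 : t - (j : ℝ) / (N : ℝ) ^ 2 = (t * (N : ℝ) ^ 2 - j) / (N : ℝ) ^ 2 := by
      field_simp
    rw [h8, abs_div, abs_of_pos hL, abs_of_nonneg (by linarith)]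
    exact div_le_div_of_nonneg_right (by linarith) hL.le
  -- the frequency
  set z : ℤ := ⌊x * (N : ℝ) ^ 2⌋ with hz
  set y : ℕ := (z % ((N ^ 2 : ℕ) : ℤ)).toNat with hy
  have hLz : ((N ^ 2 : ℕ) : ℤ) ≠ 0 := by positivity
  have hmod : 0 ≤ z % ((N ^ 2 : ℕ) : ℤ) := Int.emod_nonneg _ hLz
  have hyz : ((y : ℕ) : ℤ) = z % ((N ^ 2 : ℕ) : ℤ) := Int.toNat_of_nonneg hmod
  have hylt : y < N ^ 2 := by
    have := Int.emod_lt_of_pos z (by positivity : (0 : ℤ) < ((N ^ 2 : ℕ) : ℤ))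
    omega
  have hax : ∀ n : ℕ, e (n * ((y : ℝ) / (N : ℝ) ^ 2)) = e (n * ((z : ℝ) / (N : ℝ) ^ 2)) := by
    intro n
    have h1 : (z : ℝ) = (y : ℝ) + (N : ℝ) ^ 2 * ((z / ((N ^ 2 : ℕ) : ℤ) : ℤ) : ℝ) := by
      have h2 : z = (y : ℤ) + ((N ^ 2 : ℕ) : ℤ) * (z / ((N ^ 2 : ℕ) : ℤ)) := by
        rw [hyz]
        exact (Int.emod_add_mul_ediv z _).symm
      have h3 : ((z : ℤ) : ℝ) = (((y : ℤ) + ((N ^ 2 : ℕ) : ℤ) * (z / ((N ^ 2 : ℕ) : ℤ)) : ℤ) : ℝ) := by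
        exact_mod_cast h2
      rw [h3]
      push_cast
      ring
    have h4 : (n : ℝ) * ((z : ℝ) / (N : ℝ) ^ 2) = (n : ℝ) * ((y : ℝ) / (N : ℝ) ^ 2) +
        (((n : ℤ) * (z / ((N ^ 2 : ℕ) : ℤ)) : ℤ) : ℝ) := by
      rw [h1]
      push_cast
      field_simp
    rw [h4, u2_e_add, u2_e_int, mul_one]
  have hzd : |x - (z : ℝ) / (N : ℝ) ^ 2| ≤ 1 / (N : ℝ) ^ 2 := by
    have h6 : (z : ℝ) ≤ x * (N : ℝ) ^ 2 := Int.floor_le _
    have h7 : x * (N : ℝ) ^ 2 < z + 1 := Int.lt_floor_add_one _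
    have h8 : x - (z : ℝ) / (N : ℝ) ^ 2 = (x * (N : ℝ) ^ 2 - z) / (N : ℝ) ^ 2 := by
      field_simp
    rw [h8, abs_div, abs_of_pos hL, abs_of_nonneg (by linarith)]
    exact div_le_div_of_nonneg_right (by linarith) hL.le
  have hmem : at3 N M y r χ j ∈ famT m N := by
    unfold famT
    exact mem_biUnion.2 ⟨M, mem_range.2 (by omega), mem_biUnion.2 ⟨y, mem_range.2 hylt,
      mem_biUnion.2 ⟨r, mem_range.2 hr, mem_biUnion.2 ⟨χ, mem_univ _, mem_image_of_mem _ hjm⟩⟩⟩⟩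
  have hB := h _ hmem
  have e0 : ∑ n ∈ Icc 1 N, b n * at3 N M y r χ j n = ∑ n ∈ Icc 1 M, b n * (χ (n : ZMod (r + 1)) *
      npi n ((j : ℝ) / (N : ℝ) ^ 2) * e (n * ((y : ℝ) / (N : ℝ) ^ 2))) := by
    rw [← Finset.sum_subset (Finset.Icc_subset_Icc_right hM)
      (f := fun n => b n * at3 N M y r χ j n)]
    · refine Finset.sum_congr rfl fun n hn => ?_
      unfold at3
      rw [if_pos (mem_Icc.1 hn).2]
    · intro n hn hnM
      rw [mem_Icc] at hn hnM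
      unfold at3
      rw [if_neg fun hh => hnM ⟨hn.1, hh⟩, mul_zero]
  rw [e0] at hB
  have hcmp : ‖∑ n ∈ Icc 1 M, b n * (χ (n : ZMod (r + 1)) * npi n t * e (n * x)) -
      ∑ n ∈ Icc 1 M, b n * (χ (n : ZMod (r + 1)) *
      npi n ((j : ℝ) / (N : ℝ) ^ 2) * e (n * ((y : ℝ) / (N : ℝ) ^ 2)))‖ ≤ 8 := by
    rw [← Finset.sum_sub_distrib]
    refine (norm_sum_le _ _).trans ?_
    have h1 : ∀ n ∈ Icc 1 M, ‖b n * (χ (n : ZMod (r + 1)) * npi n t * e (n * x)) -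
        b n * (χ (n : ZMod (r + 1)) * npi n ((j : ℝ) / (N : ℝ) ^ 2) *
          e (n * ((y : ℝ) / (N : ℝ) ^ 2)))‖ ≤ 8 / N := by
      intro n hn
      obtain ⟨hn1, hn2⟩ := mem_Icc.1 hn
      have hnN : (n : ℝ) ≤ N := by exact_mod_cast hn2.trans hM
      rw [hax, ← mul_sub, norm_mul]
      have e1 : χ (n : ZMod (r + 1)) * npi n t * e (n * x) -
          χ (n : ZMod (r + 1)) * npi n ((j : ℝ) / (N : ℝ) ^ 2) * e (n * ((z : ℝ) / (N : ℝ) ^ 2)) =
          χ (n : ZMod (r + 1)) * ((npi n t - npi n ((j : ℝ) / (N : ℝ) ^ 2)) * e (n * x) +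
            npi n ((j : ℝ) / (N : ℝ) ^ 2) * (e (n * x) - e (n * ((z : ℝ) / (N : ℝ) ^ 2)))) := by
        ring
      rw [e1, norm_mul]
      have h9 : Real.log n ≤ N := by
        have : Real.log n ≤ n := (Real.log_le_sub_one_of_pos (by exact_mod_cast hn1)).trans
          (by linarith)
        linarith
      have h11 := Pool.Agent.Helper92.GB.RBaux.npi_lip n hn1 t ((j : ℝ) / (N : ℝ) ^ 2)
      have h12 : Real.log n * |t - (j : ℝ) / (N : ℝ) ^ 2| ≤ 1 / N := by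
        calc Real.log n * |t - (j : ℝ) / (N : ℝ) ^ 2| ≤ N * (1 / (N : ℝ) ^ 2) :=
              mul_le_mul h9 hjd (abs_nonneg _) hNpos.le
          _ = 1 / N := by field_simp
      have h13 : ‖e (n * x) - e (n * ((z : ℝ) / (N : ℝ) ^ 2))‖ ≤ 7 / N := by
        refine (e_lip _ _).trans ?_
        rw [← mul_sub, abs_mul, abs_of_nonneg (Nat.cast_nonneg n : (0 : ℝ) ≤ (n : ℝ))]
        have h10 : (n : ℝ) * |x - (z : ℝ) / (N : ℝ) ^ 2| ≤ 1 / N := by
          calc (n : ℝ) * |x - (z : ℝ) / (N : ℝ) ^ 2| ≤ N * (1 / (N : ℝ) ^ 2) :=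
                mul_le_mul hnN hzd (abs_nonneg _) hNpos.le
            _ = 1 / N := by field_simp
        have hpi : 2 * Real.pi ≤ 7 := by linarith [Real.pi_lt_d2]
        calc 2 * Real.pi * ((n : ℝ) * |x - (z : ℝ) / (N : ℝ) ^ 2|) ≤ 7 * (1 / N) :=
              mul_le_mul hpi h10 (by positivity) (by norm_num)
          _ = 7 / N := by ring
      have h14 : ‖(npi n t - npi n ((j : ℝ) / (N : ℝ) ^ 2)) * e (n * x) +
            npi n ((j : ℝ) / (N : ℝ) ^ 2) * (e (n * x) - e (n * ((z : ℝ) / (N : ℝ) ^ 2)))‖ ≤ 8 / N := by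
        refine (norm_add_le _ _).trans ?_
        rw [norm_mul, norm_mul, u2_norm_e, mul_one]
        have h15 : ‖npi n ((j : ℝ) / (N : ℝ) ^ 2)‖ * ‖e (n * x) - e (n * ((z : ℝ) / (N : ℝ) ^ 2))‖ ≤
            1 * (7 / N) := mul_le_mul (Pool.Agent.Helper92.GB.RBaux.npi_norm _ _) h13 (norm_nonneg _) zero_le_one
        have h16 := h11.trans h12
        have h17 : (8 : ℝ) / N = 1 / N + 1 * (7 / N) := by ring
        rw [h17]
        exact add_le_add h16 h15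
      calc ‖b n‖ * (‖χ (n : ZMod (r + 1))‖ * ‖(npi n t - npi n ((j : ℝ) / (N : ℝ) ^ 2)) * e (n * x) +
            npi n ((j : ℝ) / (N : ℝ) ^ 2) * (e (n * x) - e (n * ((z : ℝ) / (N : ℝ) ^ 2)))‖)
          ≤ 1 * (1 * (8 / N)) :=
            mul_le_mul (hb n) (mul_le_mul (χ.norm_le_one _) h14 (norm_nonneg _) zero_le_one)
              (by positivity) zero_le_one
        _ = 8 / N := by ring
    refine (Finset.sum_le_sum h1).trans ?_
    rw [Finset.sum_const, Nat.card_Icc, nsmul_eq_mul]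
    have h2 : (((M + 1 - 1 : ℕ)) : ℝ) ≤ N := by
      have : M + 1 - 1 ≤ N := by omega
      exact_mod_cast this
    calc ((M + 1 - 1 : ℕ) : ℝ) * (8 / N) ≤ N * (8 / N) :=
          mul_le_mul_of_nonneg_right h2 (by positivity)
      _ = 8 := by field_simp
  have h3 := norm_sub_norm_le (∑ n ∈ Icc 1 M, b n * (χ (n : ZMod (r + 1)) * npi n t * e (n * x)))
    (∑ n ∈ Icc 1 M, b n * (χ (n : ZMod (r + 1)) *
      npi n ((j : ℝ) / (N : ℝ) ^ 2) * e (n * ((y : ℝ) / (N : ℝ) ^ 2))))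
  linarith

/-- the trivial bound -/
private theorem twist_triv (b : ℕ → ℂ) (hb : ∀ n, ‖b n‖ ≤ 1) (N q : ℕ)
    (χ : DirichletCharacter ℂ q) (t : ℝ) (M : ℕ) (hM : M ≤ N) (x : ℝ) :
    ‖∑ n ∈ Icc 1 M, b n * (χ (n : ZMod q) * npi n t * e (n * x))‖ ≤ N := by
  refine (norm_sum_le _ _).trans ?_
  have h1 : ∀ n ∈ Icc 1 M, ‖b n * (χ (n : ZMod q) * npi n t * e (n * x))‖ ≤ 1 := by
    intro n _
    rw [norm_mul, norm_mul, norm_mul, u2_norm_e, mul_one]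
    exact mul_le_one₀ (hb n) (by positivity)
      (mul_le_one₀ (χ.norm_le_one _) (norm_nonneg _) (Pool.Agent.Helper92.GB.RBaux.npi_norm _ _))
  refine (Finset.sum_le_sum h1).trans ?_
  rw [Finset.sum_const, Nat.card_Icc, nsmul_eq_mul, mul_one]
  have : M + 1 - 1 ≤ N := by omega
  exact_mod_cast this

private lemma ext_norm (f : ℕ → ℤˣ) (n : ℕ) : ‖((ext (fun n => ((f n : ℤˣ) : ℤ)) n : ℤ) : ℂ)‖ ≤ 1 := by
  unfold Pool.Agent.Helper92.GB.ext
  split_ifs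
  · rw [Int.cast_prod, norm_prod]
    refine Finset.prod_le_one (fun _ _ => norm_nonneg _) fun p _ => ?_
    rcases Int.units_eq_one_or (f p) with hp | hp <;> simp [hp]
  · simp

/-- Union bound over all twisted correlation sums. -/
theorem PIPTG (k0 : ℕ) (sx : ℕ → ℝ) (hsx : ∀ k, k0 ≤ k → 1 / 2 ≤ sx k ∧ sx k ≤ 1) {I : Type} [DecidableEq I] [Encodable I] (c : I → Finset ℕ)
    (hdis : ∀ i j, i ≠ j → Disjoint (c i) (c j)) (w w0 : ∀ i, ({p // p ∈ c i} → ℤˣ) → ℝ)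
    (hw : ∀ i, IsPW (w i)) (hw0 : ∀ i, IsPW (w0 i)) (D : I → ℝ) (hD1 : ∀ i, 1 ≤ D i)
    (hD : ∀ i x, w i x ≤ D i * w0 i x) (rel : ℕ → Finset I)
    (hcov : ∀ (N p : ℕ), p.Prime → p ≤ 2 * N → ∃ i ∈ rel N, p ∈ c i)
    (CD : ℝ) (hDp : ∀ N : ℕ, 1 ≤ N → ∏ i ∈ rel N, D i ≤ CD * (N : ℝ) ^ 5)
    (Fl : ℕ → Type) [∀ N, Fintype (Fl N)] (sg : ∀ N, Fl N → ℕ → ℤˣ)
    (hFl : ∀ N : ℕ, 1 ≤ N → Fintype.card (Fl N) ≤ N)
    (hMB : ∀ k : ℕ, k0 ≤ k → ∀ (r : ℕ) (ε : ℝ), 0 < ε → ∃ C : ℝ, ∀ N : ℕ, 1 ≤ N →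
      ∀ h : Fin k → ℕ, Function.Injective h → (∀ i, h i ≤ N) → ∀ a : ℕ → ℝ, (∀ n, |a n| ≤ 1) →
      ∀ l : List I, l.Nodup → (∀ i, i ∈ l ↔ i ∈ rel N) →
      EL c w0 l (fun f => (∑ n ∈ sqf h N, a n * ch (kap h N n) f) ^ (2 ^ (r + 1))) (fun _ => 1) ≤
        C * (N : ℝ) ^ ((2 * sx k + ε) * 2 ^ r)) :
    ∃ f : ℕ → ℤˣ, (∀ i, 0 < w i (rs (c i) f)) ∧ ∀ k : ℕ, k0 ≤ k → ∀ ε : ℝ, 0 < ε →
      ∃ C : ℝ, ∀ (q : ℕ) (χ : DirichletCharacter ℂ q) (t : ℝ) (M N : ℕ), 1 ≤ q → M ≤ N → 1 ≤ N →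
        ∀ h : Fin k → ℕ, Function.Injective h → (∀ i, h i ≤ N) → ∀ (φ : Fl N) (x : ℝ),
        ‖cort (ext fun n => ((sg N φ n * f n : ℤˣ) : ℤ)) h χ t M x‖ ≤
          C * ((q : ℝ) * (1 + |t|) * N) ^ ε * (N : ℝ) ^ sx k := by
  obtain ⟨f, hf1, hf2⟩ := PIPEG k0 sx hsx c hdis w w0 hw hw0 D hD1 hD rel hcov CD hDp Fl sg hFl hMB
    famT famT_norm (fun m => 3 * m + 8) (fun _ => 6) (fun _ => by norm_num) famT_card
  refine ⟨f, hf1, ?_⟩
  intro k hk ε hε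
  obtain ⟨m, hm⟩ := exists_nat_one_div_lt hε
  obtain ⟨C, hC0, hC⟩ := hf2 k hk m
  refine ⟨C + 9, ?_⟩
  intro q χ t M N hq hMN hN h hinj hle φ x
  have hNR : (1 : ℝ) ≤ N := by exact_mod_cast hN
  have hNpos : (0 : ℝ) < N := by linarith
  have hqR : (1 : ℝ) ≤ q := by exact_mod_cast hq
  have ht0 : (1 : ℝ) ≤ 1 + |t| := by linarith [abs_nonneg t]
  have hqt : (1 : ℝ) ≤ (q : ℝ) * (1 + |t|) := by nlinarith
  have hqtN : (1 : ℝ) ≤ (q : ℝ) * (1 + |t|) * N := by nlinarith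
  have hNq : (N : ℝ) ≤ (q : ℝ) * (1 + |t|) * N := by nlinarith
  have hm1 : (0 : ℝ) < 1 / ((m : ℝ) + 1) := by positivity
  have hE : (1 : ℝ) ≤ ((q : ℝ) * (1 + |t|) * N) ^ ε := Real.one_le_rpow hqtN hε.le
  have hH : (1 : ℝ) ≤ (N : ℝ) ^ sx k := Real.one_le_rpow hNR (by have := (hsx k hk).1; linarith)
  have hb : ∀ n, ‖∏ i, ((ext (fun n => ((sg N φ n * f n : ℤˣ) : ℤ)) (n + h i) : ℤ) : ℂ)‖ ≤ 1 := by
    intro n
    rw [norm_prod]
    exact Finset.prod_le_one (fun _ _ => norm_nonneg _) fun i _ => ext_norm _ _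
  have hmono : ((q : ℝ) * (1 + |t|) * N) ^ (1 / ((m : ℝ) + 1)) ≤ ((q : ℝ) * (1 + |t|) * N) ^ ε :=
    Real.rpow_le_rpow_of_exponent_le hqtN hm.le
  unfold cort
  by_cases hbig : (q : ℝ) * (1 + |t|) ≤ (N : ℝ) ^ (m + 1)
  · have h1 := twist_le (fun n => ∏ i, ((ext (fun n => ((sg N φ n * f n : ℤˣ) : ℤ)) (n + h i) : ℤ) : ℂ))
      hb m N hN (C * (N : ℝ) ^ (sx k + 1 / ((m : ℝ) + 1)))
      (fun a ha => hC N hN h hinj hle φ a ha) q hq χ t M hMN x hbig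
    refine h1.trans ?_
    have h2 : (N : ℝ) ^ (sx k + 1 / ((m : ℝ) + 1)) ≤
        ((q : ℝ) * (1 + |t|) * N) ^ ε * (N : ℝ) ^ sx k := by
      rw [Real.rpow_add hNpos, mul_comm]
      refine mul_le_mul_of_nonneg_right ?_ (by positivity)
      exact (Real.rpow_le_rpow hNpos.le hNq hm1.le).trans hmono
    have h3 : (1 : ℝ) ≤ ((q : ℝ) * (1 + |t|) * N) ^ ε * (N : ℝ) ^ sx k := by nlinarith
    have h4 := mul_le_mul_of_nonneg_left h2 hC0
    rw [mul_assoc (C + 9)]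
    nlinarith
  · push Not at hbig
    refine (twist_triv _ hb N q χ t M hMN x).trans ?_
    have h2 : (N : ℝ) ≤ ((q : ℝ) * (1 + |t|) * N) ^ (1 / ((m : ℝ) + 1)) := by
      have h3 : ((N : ℝ) ^ (m + 1)) ≤ (q : ℝ) * (1 + |t|) * N := by
        have : (q : ℝ) * (1 + |t|) ≤ (q : ℝ) * (1 + |t|) * N := by nlinarith
        linarith
      calc (N : ℝ) = ((N : ℝ) ^ (m + 1)) ^ (1 / ((m : ℝ) + 1)) := by
            rw [← Real.rpow_natCast, ← Real.rpow_mul hNpos.le]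
            push_cast
            rw [mul_one_div_cancel (by positivity), Real.rpow_one]
        _ ≤ _ := Real.rpow_le_rpow (by positivity) h3 hm1.le
    have h3 := h2.trans hmono
    have h4 : (0 : ℝ) ≤ ((q : ℝ) * (1 + |t|) * N) ^ ε := by positivity
    rw [mul_assoc (C + 9)]
    have h5 : ((q : ℝ) * (1 + |t|) * N) ^ ε ≤ ((q : ℝ) * (1 + |t|) * N) ^ ε * (N : ℝ) ^ sx k := by
      nlinarith
    nlinarith

end Pool.Agent.Helper55.SP
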